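import Mathlib
import Pool.Agent.QUD.StmtsV

/-!
# Squad QUD, row CVG: monotone logarithmic derivative
-/

set_option autoImplicit false

namespace Pool.Agent.QUD.H95

open Filter Topology Real Set Pool.Agent.QUD

/-- CVG -/
theorem cvg (cva : CvaStmt) : CvgStmt := by
  intro β η η' hβ1 hβ2 h0 hlt hη'
  have hβ0 : (0 : ℝ) < β := by linarith
  have hpi := Real.pi_pos
  -- the basic facts
  have key : ∀ t : ℝ, 0 < t → t < π / β - π / 2 →
      0 < β * t ∧ β * t < π / 2 ∧ t < β * t ∧ 2 * β * t < 2 * π - β * π := by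
    intro t ht0 ht1
    have h1 : β * (π / β) = π := by field_simp
    have h2 : β * t < π - β * (π / 2) := by
      have := mul_lt_mul_of_pos_left ht1 hβ0
      rw [mul_sub, h1] at this
      exact this
    refine ⟨mul_pos hβ0 ht0, ?_, ?_, ?_⟩
    · have : π / 2 < β * (π / 2) := by nlinarith
      linarith
    · nlinarith
    · nlinarith
  have posE : ∀ t : ℝ, 0 < t → t < π / β - π / 2 → 0 < cos (2 * β * t) - cos (β * π) := by
    intro t ht0 ht1
    obtain ⟨k1, k2, k3, k4⟩ := key t ht0 ht1
    have h1 : cos (β * π) = cos (2 * π - β * π) := by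
      rw [Real.cos_two_pi_sub]
    have h2 : cos (2 * π - β * π) < cos (2 * β * t) := by
      apply Real.cos_lt_cos_of_nonneg_of_le_pi
      · nlinarith
      · nlinarith
      · exact k4
    rw [h1]
    linarith
  have gtm : -1 < cos (β * π) := by
    have h1 : cos (β * π) = -cos (β * π - π) := by
      rw [Real.cos_sub_pi]
      ring
    have h2 : cos (β * π - π) < 1 := by
      have := Real.cos_lt_cos_of_nonneg_of_le_pi (x := 0) (y := β * π - π) le_rfl (by nlinarith)
        (by nlinarith)
      rwa [Real.cos_zero] at this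
    rw [h1]
    linarith
  have pos2 : ∀ t : ℝ, 0 < t → t < π / β - π / 2 → 0 < sin (2 * β * t) ∧ 0 < cos t ∧
      0 < sin t ∧ 0 < sin (β * t) ∧ 0 < cos (β * t) := by
    intro t ht0 ht1
    obtain ⟨k1, k2, k3, k4⟩ := key t ht0 ht1
    refine ⟨?_, ?_, ?_, ?_, ?_⟩
    · apply Real.sin_pos_of_pos_of_lt_pi
      · nlinarith
      · nlinarith
    · exact Real.cos_pos_of_mem_Ioo ⟨by linarith, by linarith⟩
    · exact Real.sin_pos_of_pos_of_lt_pi ht0 (by linarith)
    · exact Real.sin_pos_of_pos_of_lt_pi k1 (by linarith)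
    · exact Real.cos_pos_of_mem_Ioo ⟨by linarith, k2⟩
  -- the logarithmic derivative is positive
  have dpos : ∀ t : ℝ, 0 < t → t < π / β - π / 2 →
      0 < cos (2 * β * t) * (2 * β) / sin (2 * β * t) + 2 * (-sin t / cos t)
        - cos t / sin t - 2 * (-sin (2 * β * t) * (2 * β) / (cos (2 * β * t) - cos (β * π))) := by
    intro t ht0 ht1
    obtain ⟨k1, k2, k3, k4⟩ := key t ht0 ht1
    obtain ⟨p1, p2, p3, p4, p5⟩ := pos2 t ht0 ht1
    have pE := posE t ht0 ht1
    have hc := cva t (β * t) ht0 k3.le k2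
    have e1 : sin (2 * β * t) = 2 * sin (β * t) * cos (β * t) := by
      rw [show 2 * β * t = 2 * (β * t) by ring, Real.sin_two_mul]
    have e2 : cos (2 * β * t) = cos (β * t) ^ 2 - sin (β * t) ^ 2 := by
      rw [show 2 * β * t = 2 * (β * t) by ring, Real.cos_two_mul']
    have e3 : cos (2 * β * t) = 2 * cos (β * t) ^ 2 - 1 := by
      rw [show 2 * β * t = 2 * (β * t) by ring, Real.cos_two_mul]
    -- first term
    have f1 : cos (2 * β * t) * (2 * β) / sin (2 * β * t)
        = β * (cos (β * t) / sin (β * t)) - β * (sin (β * t) / cos (β * t)) := by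
      rw [e1, e2]
      field_simp
    -- last term
    have f2 : 4 * β * (sin (β * t) / cos (β * t))
        < 2 * (sin (2 * β * t) * (2 * β) / (cos (2 * β * t) - cos (β * π))) := by
      have g1 : cos (2 * β * t) - cos (β * π) < 2 * cos (β * t) ^ 2 := by
        rw [e3]
        linarith
      have g2 : 4 * β * (sin (β * t) / cos (β * t))
          = 2 * (sin (2 * β * t) * (2 * β) / (2 * cos (β * t) ^ 2)) := by
        rw [e1]
        field_simp
        ring
      rw [g2]
      have g3 : 0 < sin (2 * β * t) * (2 * β) := by positivity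
      have g4 : sin (2 * β * t) * (2 * β) / (2 * cos (β * t) ^ 2)
          < sin (2 * β * t) * (2 * β) / (cos (2 * β * t) - cos (β * π)) :=
        div_lt_div_of_pos_left g3 pE g1
      linarith
    -- CVA divided by `t`
    have f3 : cos t / sin t + 3 * (sin t / cos t)
        ≤ β * (cos (β * t) / sin (β * t)) + 3 * (β * (sin (β * t) / cos (β * t))) := by
      have g1 : t * (cos t / sin t + 3 * (sin t / cos t))
          = t * cos t / sin t + 3 * (t * sin t / cos t) := by ring
      have g2 : t * (β * (cos (β * t) / sin (β * t)) + 3 * (β * (sin (β * t) / cos (β * t))))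
          = β * t * cos (β * t) / sin (β * t) + 3 * (β * t * sin (β * t) / cos (β * t)) := by
        ring
      refine le_of_mul_le_mul_left ?_ ht0
      rw [g1, g2]
      exact hc
    have f4 : 0 < sin t / cos t := div_pos p3 p2
    have f5 : -sin t / cos t = -(sin t / cos t) := by ring
    have f6 : -sin (2 * β * t) * (2 * β) / (cos (2 * β * t) - cos (β * π))
        = -(sin (2 * β * t) * (2 * β) / (cos (2 * β * t) - cos (β * π))) := by ring
    rw [f1, f5, f6]
    linarith
  -- the logarithm
  have hder : ∀ t : ℝ, 0 < t → t < π / β - π / 2 → HasDerivAt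
      (fun u => Real.log (sin (2 * β * u)) + 2 * Real.log (cos u) - Real.log (sin u)
        - 2 * Real.log (cos (2 * β * u) - cos (β * π)))
      (cos (2 * β * t) * (2 * β) / sin (2 * β * t) + 2 * (-sin t / cos t)
        - cos t / sin t - 2 * (-sin (2 * β * t) * (2 * β) / (cos (2 * β * t) - cos (β * π)))) t := by
    intro t ht0 ht1
    obtain ⟨p1, p2, p3, p4, p5⟩ := pos2 t ht0 ht1
    have pE := posE t ht0 ht1
    have d0 : HasDerivAt (fun u : ℝ => 2 * β * u) (2 * β) t := by
      simpa using (hasDerivAt_id t).const_mul (2 * β)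
    have d1 : HasDerivAt (fun u => sin (2 * β * u)) (cos (2 * β * t) * (2 * β)) t := d0.sin
    have d2 : HasDerivAt (fun u => cos (2 * β * u)) (-sin (2 * β * t) * (2 * β)) t := d0.cos
    have d3 := d1.log p1.ne'
    have d4 := (Real.hasDerivAt_cos t).log p2.ne'
    have d5 := (Real.hasDerivAt_sin t).log p3.ne'
    have d6 := (d2.sub_const (cos (β * π))).log pE.ne'
    exact ((d3.add (d4.const_mul 2)).sub d5).sub (d6.const_mul 2)
  have hmono : StrictMonoOn (fun u => Real.log (sin (2 * β * u)) + 2 * Real.log (cos u)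
      - Real.log (sin u) - 2 * Real.log (cos (2 * β * u) - cos (β * π))) (Icc η η') := by
    apply strictMonoOn_of_deriv_pos (convex_Icc η η')
    · intro t ht
      exact (hder t (lt_of_lt_of_le h0 ht.1)
        (lt_of_le_of_lt ht.2 hη')).continuousAt.continuousWithinAt
    · intro t ht
      rw [interior_Icc] at ht
      have h1 := hder t (lt_trans h0 ht.1) (lt_trans ht.2 hη')
      rw [h1.deriv]
      exact dpos t (lt_trans h0 ht.1) (lt_trans ht.2 hη')
  have hlog : ∀ t : ℝ, 0 < t → t < π / β - π / 2 → 0 < Gc β t ∧ Real.log (Gc β t) =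
      Real.log (sin (2 * β * t)) + 2 * Real.log (cos t)
      - Real.log (sin t) - 2 * Real.log (cos (2 * β * t) - cos (β * π)) := by
    intro t ht0 ht1
    obtain ⟨p1, p2, p3, p4, p5⟩ := pos2 t ht0 ht1
    have pE := posE t ht0 ht1
    unfold Gc
    constructor
    · positivity
    · rw [Real.log_div (by positivity) (by positivity), Real.log_mul p1.ne' (by positivity),
        Real.log_mul p3.ne' (by positivity), Real.log_pow, Real.log_pow]
      push_cast
      ring
  have hη1 : η < π / β - π / 2 := lt_trans hlt hη'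
  have hη0 : 0 < η' := lt_trans h0 hlt
  have hfin := hmono (left_mem_Icc.2 hlt.le) (right_mem_Icc.2 hlt.le) hlt
  obtain ⟨g1, g2⟩ := hlog η h0 hη1
  obtain ⟨g3, g4⟩ := hlog η' hη0 hη'
  apply (Real.log_lt_log_iff g1 g3).1
  rw [g2, g4]
  exact hfin

end Pool.Agent.QUD.H95
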