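import Mathlib
import Pool.Agent.QUD.StmtsL

/-!
# Squad QUD, row KIN: a triple at the first level is a dying side with its two neighbours
-/

set_option autoImplicit false

namespace Pool.Agent.QUD.H95

open MeasureTheory Complex Filter Topology Pool.Agent.H62T
open Pool.Agent.H16F (Sublin)
open Pool.Agent.AEU Pool.Agent.XQ Pool.Agent.QUD

/-- `ip ^ 2 + dt ^ 2 = 1` for unit vectors -/
theorem kin_sq {z w : ℂ} (hz : ‖z‖ = 1) (hw : ‖w‖ = 1) : ip z w ^ 2 + dt z w ^ 2 = 1 := by
  have h1 : z.re ^ 2 + z.im ^ 2 = 1 := by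
    have := Complex.sq_norm z
    rw [hz, Complex.normSq_apply] at this
    nlinarith
  have h2 : w.re ^ 2 + w.im ^ 2 = 1 := by
    have := Complex.sq_norm w
    rw [hw, Complex.normSq_apply] at this
    nlinarith
  have h3 : ip z w ^ 2 + dt z w ^ 2 = (z.re ^ 2 + z.im ^ 2) * (w.re ^ 2 + w.im ^ 2) := by
    unfold ip dt
    ring
  rw [h3, h1, h2]
  ring

theorem kin_ip_comm (z w : ℂ) : ip z w = ip w z := by
  unfold ip
  ring

theorem kin_vx_comm (s t : HP) : vx s t = vx t s := by
  unfold vx
  have h : dt t.1 s.1 = -dt s.1 t.1 := by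
    unfold dt
    ring
  rw [h]
  push_cast
  rw [div_neg, ← neg_div]
  congr 1
  ring

/-- two points on the line with the unit normal `n` -/
theorem kin_line {n p q : ℂ} (hn : ‖n‖ = 1) (h : ip n p = ip n q) :
    ∃ t : ℝ, q = p + (t : ℂ) * (I * n) ∧ ‖p - q‖ = |t| := by
  have h1 : n.re ^ 2 + n.im ^ 2 = 1 := by
    have := Complex.sq_norm n
    rw [hn, Complex.normSq_apply] at this
    nlinarith
  have h0 : n.re * (q.re - p.re) + n.im * (q.im - p.im) = 0 := by
    unfold ip at h
    linarith
  refine ⟨n.re * (q.im - p.im) - n.im * (q.re - p.re), ?_, ?_⟩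
  · apply Complex.ext
    · simp only [add_re, mul_re, ofReal_re, ofReal_im, I_re, I_im, zero_mul, one_mul, mul_im,
        zero_sub, sub_zero, zero_add]
      linear_combination (-(q.re - p.re)) * h1 + n.re * h0
    · simp only [add_im, mul_re, ofReal_re, ofReal_im, I_re, I_im, zero_mul, one_mul, mul_im,
        zero_sub, zero_add, add_zero]
      linear_combination (-(q.im - p.im)) * h1 + n.im * h0
  · have h2 : ‖p - q‖ ^ 2 = |n.re * (q.im - p.im) - n.im * (q.re - p.re)| ^ 2 := by
      rw [Complex.sq_norm, Complex.normSq_apply, sq_abs]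
      simp only [sub_re, sub_im]
      linear_combination (-((q.re - p.re) ^ 2 + (q.im - p.im) ^ 2)) * h1 +
        (n.re * (q.re - p.re) + n.im * (q.im - p.im)) * h0
    exact (sq_eq_sq₀ (norm_nonneg _) (abs_nonneg _)).1 h2

theorem kin_ip_line (m n p : ℂ) (t : ℝ) :
    ip m (p + (t : ℂ) * (I * n)) = ip m p - t * dt m n := by
  unfold ip dt
  simp only [add_re, add_im, mul_re, mul_im, ofReal_re, ofReal_im, I_re, I_im]
  ring

/-- KIN -/
theorem kin (thr : ThrStmt) (opp : OppStmt) (trv : TrvStmt) (vxx : VxxStatement)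
    (ghx : GhxStatement) (cl3 : Cl3Statement) (tax : TaxStatement) (tbx : TbxStatement) :
    KinStmt := by
  classical
  intro a b c d L cyc hL bel hN
  have pg := cyc.pg
  obtain ⟨nab, nac, nad, nbc, nbd, ncd⟩ := cyc.ne
  have ma : a ∈ ({a, b, c, d} : Finset HP) := by simp
  have mb' : b ∈ ({a, b, c, d} : Finset HP) := by simp
  have mc : c ∈ ({a, b, c, d} : Finset HP) := by simp
  have ua : ‖a.1‖ = 1 := pg.unit a ma
  have ub : ‖b.1‖ = 1 := pg.unit b mb'
  have uc : ‖c.1‖ = 1 := pg.unit c mc
  unfold N1 at hN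
  rw [Finset.mem_filter] at hN
  obtain ⟨hSX, np, hle⟩ := hN
  obtain ⟨h, hs, hfit, hsub, hlen⟩ := hle
  rw [Finset.mem_powersetCard] at hSX
  obtain ⟨hSX, hcard⟩ := hSX
  have dab := cyc.ab
  have dbc := cyc.bc
  -- (1)
  have dac : 0 < dt a.1 c.1 := by
    rcases lt_trichotomy (dt a.1 c.1) 0 with h1 | h1 | h1
    · exfalso
      obtain ⟨h', hs', hfit', hcard', hlen'⟩ := trv a b c d cyc h1 h hs hfit hsub
      have := (bel h' hs' hfit' (lt_of_lt_of_le hlen' hlen)).1
      omega
    · exact absurd h1 (np a (by simp) c (by simp) nac)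
    · exact h1
  refine ⟨dac, ?_⟩
  -- angles
  have sab := kin_sq ua ub
  have sbc := kin_sq ub uc
  have iab1 : ip a.1 b.1 < 1 := by nlinarith
  have iab2 : -1 < ip a.1 b.1 := by nlinarith
  have ibc1 : ip b.1 c.1 < 1 := by nlinarith
  have ibc2 : -1 < ip b.1 c.1 := by nlinarith
  obtain ⟨x, hxdef⟩ : ∃ x : ℝ, x = Real.arccos (-ip a.1 b.1) := ⟨_, rfl⟩
  obtain ⟨y, hydef⟩ : ∃ y : ℝ, y = Real.arccos (-ip b.1 c.1) := ⟨_, rfl⟩
  have cx : Real.cos x = -ip a.1 b.1 := by
    rw [hxdef]
    exact Real.cos_arccos (by linarith) (by linarith)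
  have cy : Real.cos y = -ip b.1 c.1 := by
    rw [hydef]
    exact Real.cos_arccos (by linarith) (by linarith)
  have x0 : 0 < x := by
    rw [hxdef]
    exact Real.arccos_pos.2 (by linarith)
  have y0 : 0 < y := by
    rw [hydef]
    exact Real.arccos_pos.2 (by linarith)
  have x1 : x < Real.pi := by
    rw [hxdef]
    refine lt_of_le_of_ne (Real.arccos_le_pi _) ?_
    intro hh
    have := congrArg Real.cos hh
    rw [Real.cos_arccos (by linarith) (by linarith), Real.cos_pi] at this
    linarith
  have y1 : y < Real.pi := by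
    rw [hydef]
    refine lt_of_le_of_ne (Real.arccos_le_pi _) ?_
    intro hh
    have := congrArg Real.cos hh
    rw [Real.cos_arccos (by linarith) (by linarith), Real.cos_pi] at this
    linarith
  have sx0 : 0 < Real.sin x := Real.sin_pos_of_pos_of_lt_pi x0 x1
  have sy0 : 0 < Real.sin y := Real.sin_pos_of_pos_of_lt_pi y0 y1
  have sx : Real.sin x = dt a.1 b.1 := by
    have h1 : Real.sin x ^ 2 = dt a.1 b.1 ^ 2 := by
      have := Real.sin_sq_add_cos_sq x
      rw [cx] at this
      linarith
    exact (sq_eq_sq₀ sx0.le dab.le).1 h1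
  have sy : Real.sin y = dt b.1 c.1 := by
    have h1 : Real.sin y ^ 2 = dt b.1 c.1 ^ 2 := by
      have := Real.sin_sq_add_cos_sq y
      rw [cy] at this
      linarith
    exact (sq_eq_sq₀ sy0.le dbc.le).1 h1
  have hadd : dt a.1 c.1 = dt a.1 b.1 * ip b.1 c.1 + ip a.1 b.1 * dt b.1 c.1 := by
    have h1 : b.1.re ^ 2 + b.1.im ^ 2 = 1 := by
      have := Complex.sq_norm b.1
      rw [ub, Complex.normSq_apply] at this
      nlinarith
    unfold dt ip
    linear_combination (-(a.1.re * c.1.im - a.1.im * c.1.re)) * h1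
  have hsum : Real.pi < x + y := by
    by_contra hcon
    push Not at hcon
    have h1 : 0 ≤ Real.sin (x + y) := Real.sin_nonneg_of_nonneg_of_le_pi (by linarith) hcon
    rw [Real.sin_add, sx, sy, cx, cy] at h1
    nlinarith
  -- (2)
  have spc : ∀ h', Special {a, b, c, d} h' → L ≤ lam h' := by
    intro h' hsp
    by_contra hcon
    push Not at hcon
    have := (bel h' hsp.sub hsp.fits hcon).1
    have := hsp.three
    omega
  obtain ⟨h', hsp, hsub', hle'⟩ : ∃ h', Special {a, b, c, d} h' ∧
      ({a, b, c} : Finset HP) ⊆ touch {a, b, c, d} h' ∧ lam h' ≤ L := by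
    by_contra hcon
    push Not at hcon
    have hg : Ghost {a, b, c, d} {a, b, c} :=
      ⟨hSX, hcard, h, hs, hfit, hsub, fun h' h1 h2 => lt_of_le_of_lt hlen (hcon h' h1 h2)⟩
    obtain ⟨hac, -⟩ := ghx _ pg _ hg
    have h1 := hac a (by simp) b (by simp) nab
    have h2 := hac b (by simp) c (by simp) nbc
    nlinarith [mul_pos dab (neg_pos.2 h2), mul_pos (neg_pos.2 h1) dbc]
  have htouch : touch {a, b, c, d} h' = ({a, b, c} : Finset HP) := by
    symm
    apply Finset.eq_of_subset_of_card_le hsub'
    rw [hcard]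
    exact thr _ L pg bel h' hsp.sub hsp.fits hle'
  have hlam : lam h' = L := le_antisymm hle' (spc h' hsp)
  have hcl := cl3 _ pg h' hsp (by rw [htouch, hcard])
    (fun h'' h1 _ => by rw [hlam]; exact spc h'' h1)
  -- (3)
  obtain ⟨v1, v2, -, v4, v5, -, v7, -⟩ := vxx _ pg
  have vab := cyc.vab
  have vbc := cyc.vbc
  obtain ⟨l, hl, hl'⟩ := kin_line (n := b.1) (p := vx a b) (q := vx b c) ub
    (by rw [vab.on₂, vbc.on₁])
  have e1 : ip a.1 (vx b c) = a.2 - l * dt a.1 b.1 := by
    rw [hl, kin_ip_line, vab.on₁]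
  have e2 : ip c.1 (vx b c) = ip c.1 (vx a b) + l * dt b.1 c.1 := by
    have : dt b.1 c.1 = -dt c.1 b.1 := by
      unfold dt
      ring
    rw [this]
    conv_lhs => rw [hl]
    rw [kin_ip_line]
    ring
  have hapos : ip a.1 (vx b c) < a.2 := v2 b c _ vbc a ma nab nac
  have lpos : 0 < l := by
    by_contra hcon
    push Not at hcon
    nlinarith
  have hnorm : ‖vx a b - vx b c‖ = l := by rw [hl', abs_of_pos lpos]
  have noac : ∀ v, VxOf {a, b, c, d} a c v → False := fun v hv =>
    opp a b c d cyc v hv.cl hv.on₁ hv.on₂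
  have noca : ∀ v, VxOf {a, b, c, d} c a v → False := fun v hv =>
    opp a b c d cyc v hv.cl hv.on₂ hv.on₁
  have obx : 0 ≤ ip a.1 b.1 → sn x = 1 := by
    intro h1
    unfold sn
    rw [if_neg]
    intro h2
    have := Real.cos_pos_of_mem_Ioo ⟨by linarith [Real.pi_pos], h2⟩
    linarith
  have oby : 0 ≤ ip b.1 c.1 → sn y = 1 := by
    intro h1
    unfold sn
    rw [if_neg]
    intro h2
    have := Real.cos_pos_of_mem_Ioo ⟨by linarith [Real.pi_pos], h2⟩
    linarith
  have acx : ip a.1 b.1 < 0 → x < Real.pi / 2 := by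
    intro h1
    by_contra hcon
    push Not at hcon
    have := Real.cos_nonpos_of_pi_div_two_le_of_le hcon (by linarith [Real.pi_pos])
    linarith
  have acy : ip b.1 c.1 < 0 → y < Real.pi / 2 := by
    intro h1
    by_contra hcon
    push Not at hcon
    have := Real.cos_nonpos_of_pi_div_two_le_of_le hcon (by linarith [Real.pi_pos])
    linarith
  refine ⟨x, y, x0, x1, y0, y1, hsum, by rw [cx]; ring, by rw [cy]; ring, ?_⟩
  rcases hcl with ⟨i, j, k, v, w, hA⟩ | ⟨i, j, q, v, d', hB⟩
  · -- (4)
    obtain ⟨-, t1, t2, t3, t4, t5, t6, -⟩ := tax _ pg h' i j k v w hA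
    have hvi := hA.vi
    have hwk := hA.wk
    have hik := hA.ne
    have hob := hA.obt
    have hob' := hA.obt'
    rw [htouch] at t1
    have mi : i = a ∨ i = b ∨ i = c := by
      have : i ∈ ({a, b, c} : Finset HP) := by rw [t1]; simp
      simpa using this
    have mj : j = a ∨ j = b ∨ j = c := by
      have : j ∈ ({a, b, c} : Finset HP) := by rw [t1]; simp
      simpa using this
    have mk : k = a ∨ k = b ∨ k = c := by
      have : k ∈ ({a, b, c} : Finset HP) := by rw [t1]; simp
      simpa using this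
    have hjb : j = b := by
      rcases mj with rfl | rfl | rfl
      · exfalso
        rcases mi with rfl | rfl | rfl
        · exact t2 rfl
        · rcases mk with rfl | rfl | rfl
          · exact t3 rfl
          · exact hik rfl
          · exact noac _ hwk
        · exact noca _ hvi
      · rfl
      · exfalso
        rcases mi with rfl | rfl | rfl
        · exact noac _ hvi
        · rcases mk with rfl | rfl | rfl
          · exact noca _ hwk
          · exact hik rfl
          · exact t3 rfl
        · exact t2 rfl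
    subst hjb
    have hcase : (i = a ∧ k = c) ∨ (i = c ∧ k = a) := by
      rcases mi with h1 | h1 | h1
      · rcases mk with h2 | h2 | h2
        · exact absurd (h1.trans h2.symm) hik
        · exact absurd h2.symm t3
        · exact Or.inl ⟨h1, h2⟩
      · exact absurd h1 t2
      · rcases mk with h2 | h2 | h2
        · exact Or.inr ⟨h1, h2⟩
        · exact absurd h2.symm t3
        · exact absurd (h1.trans h2.symm) hik
    rcases hcase with ⟨rfl, rfl⟩ | ⟨rfl, rfl⟩
    · rw [obx hob, oby hob', ← hlam, t6]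
      unfold eA
      ring
    · rw [kin_ip_comm] at hob hob'
      rw [obx hob', oby hob, ← hlam, t6]
      unfold eA
      rw [kin_vx_comm i j, kin_vx_comm j k, norm_sub_rev]
      ring
  · -- (5)
    obtain ⟨-, t1, t2, t3, t4, t5, -, -, t6⟩ := tbx _ pg h' i j q v d' hB
    have hvi := hB.vi
    rw [htouch] at t1
    have hnp : Np {i, j, q} := by rw [← t1]; exact np
    have hI := t6 hnp
    have hlen' := hI.len
    rw [hlam] at hlen'
    have ha := hI.nega
    have hb := hI.negb
    have mi : i = a ∨ i = b ∨ i = c := by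
      have : i ∈ ({a, b, c} : Finset HP) := by rw [t1]; simp
      simpa using this
    have mj : j = a ∨ j = b ∨ j = c := by
      have : j ∈ ({a, b, c} : Finset HP) := by rw [t1]; simp
      simpa using this
    have mq : q = a ∨ q = b ∨ q = c := by
      have : q ∈ ({a, b, c} : Finset HP) := by rw [t1]; simp
      simpa using this
    have hcase : (((i = a ∧ j = b) ∨ (i = b ∧ j = a)) ∧ q = c) ∨
        (((i = b ∧ j = c) ∨ (i = c ∧ j = b)) ∧ q = a) := by
      rcases mi with h1 | h1 | h1 <;> rcases mj with h2 | h2 | h2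
      · exact absurd (h1.trans h2.symm) t2
      · left
        refine ⟨Or.inl ⟨h1, h2⟩, ?_⟩
        rcases mq with h3 | h3 | h3
        · exact absurd (h1.trans h3.symm) t3
        · exact absurd (h2.trans h3.symm) t4
        · exact h3
      · subst h1 h2
        exact absurd hvi (noac _)
      · left
        refine ⟨Or.inr ⟨h1, h2⟩, ?_⟩
        rcases mq with h3 | h3 | h3
        · exact absurd (h2.trans h3.symm) t4
        · exact absurd (h1.trans h3.symm) t3
        · exact h3
      · exact absurd (h1.trans h2.symm) t2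
      · right
        refine ⟨Or.inl ⟨h1, h2⟩, ?_⟩
        rcases mq with h3 | h3 | h3
        · exact h3
        · exact absurd (h1.trans h3.symm) t3
        · exact absurd (h2.trans h3.symm) t4
      · subst h1 h2
        exact absurd hvi (noca _)
      · right
        refine ⟨Or.inr ⟨h1, h2⟩, ?_⟩
        rcases mq with h3 | h3 | h3
        · exact h3
        · exact absurd (h2.trans h3.symm) t4
        · exact absurd (h1.trans h3.symm) t3
      · exact absurd (h1.trans h2.symm) t2
    rcases hcase with ⟨hij, hq⟩ | ⟨hij, hq⟩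
    · -- `q = c`
      have hbc : ip b.1 c.1 < 0 := by
        rcases hij with ⟨h1, h2⟩ | ⟨h1, h2⟩
        · rw [h2, hq] at hb
          exact hb
        · rw [h1, hq] at ha
          exact ha
      have hv : vx i j = vx a b := by
        rcases hij with ⟨h1, h2⟩ | ⟨h1, h2⟩
        · rw [h1, h2]
        · rw [h1, h2, kin_vx_comm]
      have hy := acy hbc
      have hx : 0 ≤ ip a.1 b.1 := by
        have := Real.cos_nonpos_of_pi_div_two_le_of_le (x := x) (by linarith)
          (by linarith [Real.pi_pos])
        linarith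
      have hsy : sn y = Real.sin y := by
        unfold sn
        rw [if_pos hy]
      rw [obx hx, hsy, sy, hnorm, ← hlen', hq, hv]
      have h3 : ip c.1 (vx b c) = c.2 := vbc.on₂
      linarith
    · -- `q = a`
      have hab : ip a.1 b.1 < 0 := by
        rw [kin_ip_comm]
        rcases hij with ⟨h1, h2⟩ | ⟨h1, h2⟩
        · rw [h1, hq] at ha
          exact ha
        · rw [h2, hq] at hb
          exact hb
      have hv : vx i j = vx b c := by
        rcases hij with ⟨h1, h2⟩ | ⟨h1, h2⟩
        · rw [h1, h2]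
        · rw [h1, h2, kin_vx_comm]
      have hx := acx hab
      have hy : 0 ≤ ip b.1 c.1 := by
        have := Real.cos_nonpos_of_pi_div_two_le_of_le (x := y) (by linarith)
          (by linarith [Real.pi_pos])
        linarith
      have hsx : sn x = Real.sin x := by
        unfold sn
        rw [if_pos hx]
      rw [oby hy, hsx, sx, hnorm, ← hlen', hq, hv, e1]
      ring

end Pool.Agent.QUD.H95
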