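import Mathlib
import Pool.Agent.QUD.StmtsF

set_option autoImplicit false

namespace Pool.Agent.QUD.H95

open MeasureTheory Complex Filter Topology ProbabilityTheory Pool.Agent.H16Iso Pool.Agent.H62T
open Pool.Agent.AEU Pool.Agent.QUD

theorem G_le (s : ℝ) (hs : 0 < s) (z : ℂ) : G s z ≤ 1 / (4 * Real.pi * s) := by
  unfold G
  apply div_le_div_of_nonneg_right _ (by positivity)
  rw [Real.exp_le_one_iff]
  apply div_nonpos_of_nonpos_of_nonneg
  · exact neg_nonpos.mpr (by positivity)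
  · positivity

theorem cont_ip (e : ℂ) : Continuous (fun x => ip e x) := by
  unfold ip
  exact (continuous_const.mul Complex.continuous_re).add
    (continuous_const.mul Complex.continuous_im)

theorem meas_up (e : ℂ) (τ : ℝ) : MeasurableSet (up e τ) :=
  (isOpen_lt continuous_const (cont_ip e)).measurableSet

noncomputable def HH (e : ℂ) (τ : ℝ) (K : ℂ → ℂ → ℝ) (x z : ℂ) : ℝ :=
  (K x z ^ 2 + K x (rf e τ z) ^ 2) + (K (rf e τ x) z ^ 2 + K (rf e τ x) (rf e τ z) ^ 2)

theorem HH_eq (e : ℂ) (τ : ℝ) (K : ℂ → ℂ → ℝ) (x z : ℂ) :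
    HH e τ K x z = (1 / 4) * (kc e τ 1 1 K x z ^ 2 + kc e τ 1 (-1) K x z ^ 2
      + kc e τ (-1) 1 K x z ^ 2 + kc e τ (-1) (-1) K x z ^ 2) := by
  unfold HH kc
  ring

/-- the facts about the traces -/
theorem trace_facts (h1 : RfbStmt) (h2 : KerStatement) (e : ℂ) (τ : ℝ) (he : ‖e‖ = 1) (D : Set ℂ)
    (hD : IsOpen D) (hb : Bornology.IsBounded D) (m : ℕ) (t : ℝ) (ht : 0 < t) :
    (∀ x, IntegrableOn (fun z => HH e τ (Ker D m (t / 2)) x z) (up e τ)) ∧
    IntegrableOn (fun x => ∫ z in up e τ, HH e τ (Ker D m (t / 2)) x z) (up e τ) ∧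
    Tr D (m + 1) t = ∫ x in up e τ, ∫ z in up e τ, HH e τ (Ker D m (t / 2)) x z := by
  obtain ⟨_, _, _, _, _, _, hσ, hint⟩ := h1 e τ he
  have ht2 : 0 < t / 2 := by positivity
  obtain ⟨hKm, hKb, hKz, _, _, _⟩ := h2 D hD hb m (t / 2) ht2
  obtain ⟨_, _, _, _, _, hTr⟩ := h2 D hD hb m t ht
  set K := Ker D m (t / 2) with hK
  set M : ℝ := 1 / (4 * Real.pi * (t / 2)) with hM
  have hM0 : 0 ≤ M := by positivity
  have hfinD : volume D < ⊤ := hb.measure_lt_top
  have hbd : ∀ x z, K x z ^ 2 ≤ M ^ 2 := by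
    intro x z
    exact pow_le_pow_left₀ (hKb x z).1 ((hKb x z).2.trans (G_le _ ht2 _)) 2
  -- F measurable
  have hFm : Measurable (Function.uncurry fun x z => K x z ^ 2) := hKm.pow_const 2
  have hFx : ∀ x, Measurable fun z => K x z ^ 2 := fun x => hFm.of_uncurry_left
  -- integrable in z
  have hFi : ∀ x, Integrable (fun z => K x z ^ 2) := by
    intro x
    have hI : Integrable (D.indicator fun _ : ℂ => M ^ 2) :=
      (integrable_indicator_iff hD.measurableSet).mpr (integrableOn_const hfinD.ne)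
    refine hI.mono' (hFx x).aestronglyMeasurable (Filter.Eventually.of_forall fun z => ?_)
    rw [Real.norm_eq_abs, abs_of_nonneg (by positivity)]
    by_cases hz : z ∈ D
    · rw [Set.indicator_of_mem hz]
      exact hbd x z
    · rw [Set.indicator_of_notMem hz, hKz x z (Or.inr hz)]
      norm_num
  -- integrable on the product
  have hFp : Integrable (Function.uncurry fun x z => K x z ^ 2) (volume.prod volume) := by
    have hI : Integrable ((D ×ˢ D).indicator fun _ : ℂ × ℂ => M ^ 2) (volume.prod volume) := by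
      refine (integrable_indicator_iff (hD.measurableSet.prod hD.measurableSet)).mpr
        (integrableOn_const ?_)
      rw [Measure.prod_prod]
      exact ENNReal.mul_ne_top hfinD.ne hfinD.ne
    refine hI.mono' hFm.aestronglyMeasurable (Filter.Eventually.of_forall fun q => ?_)
    rw [Real.norm_eq_abs, abs_of_nonneg (by unfold Function.uncurry; positivity)]
    by_cases hz : q ∈ D ×ˢ D
    · rw [Set.indicator_of_mem hz]
      exact hbd q.1 q.2
    · rw [Set.indicator_of_notMem hz]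
      have : q.1 ∉ D ∨ q.2 ∉ D := by
        by_contra hcon
        push Not at hcon
        exact hz hcon
      change K q.1 q.2 ^ 2 ≤ 0
      rw [hKz q.1 q.2 this]
      norm_num
  have hg : Integrable (fun x => ∫ z, K x z ^ 2) := hFp.integral_prod_left
  have hFσ : ∀ x, Integrable (fun z => K x (rf e τ z) ^ 2) := fun x =>
    hσ.integrable_comp_of_integrable (hFi x)
  have hgσ : Integrable (fun x => ∫ z, K (rf e τ x) z ^ 2) :=
    hσ.integrable_comp_of_integrable hg
  have hsplit : ∀ x, ∫ z, K x z ^ 2 = ∫ z in up e τ, (K x z ^ 2 + K x (rf e τ z) ^ 2) :=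
    fun x => hint _ (hFi x)
  have hHH : ∀ x, ∫ z in up e τ, HH e τ K x z = (∫ z, K x z ^ 2) + ∫ z, K (rf e τ x) z ^ 2 := by
    intro x
    rw [hsplit x, hsplit (rf e τ x)]
    exact integral_add ((hFi x).integrableOn.add (hFσ x).integrableOn)
      ((hFi (rf e τ x)).integrableOn.add (hFσ (rf e τ x)).integrableOn)
  refine ⟨?_, ?_, ?_⟩
  · intro x
    exact ((hFi x).integrableOn.add (hFσ x).integrableOn).add
      ((hFi (rf e τ x)).integrableOn.add (hFσ (rf e τ x)).integrableOn)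
  · have : (fun x => ∫ z in up e τ, HH e τ K x z)
        = fun x => (∫ z, K x z ^ 2) + ∫ z, K (rf e τ x) z ^ 2 := funext hHH
    rw [this]
    exact (hg.add hgσ).integrableOn
  · rw [hTr, hint _ hg]
    refine integral_congr_ae (Filter.Eventually.of_forall fun x => ?_)
    exact (hHH x).symm

theorem spt_fin (h1 : RfbStmt) (h2 : KerStatement) (h3 : SpnStmt) (e : ℂ) (τ : ℝ) (D D' : Set ℂ)
    (he : ‖e‖ = 1) (hD : IsOpen D) (hb : Bornology.IsBounded D) (hD' : IsOpen D')
    (hb' : Bornology.IsBounded D') (hP : Pol e τ D D') (m : ℕ) (t δ : ℝ) (ht : 0 < t)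
    (hδ : 0 ≤ δ) (U V : Set ℂ) (hU : MeasurableSet U) (hV : MeasurableSet V)
    (hUf : volume U ≠ ⊤) (hVf : volume V ≠ ⊤)
    (hUx : ∀ x ∈ U, x ∈ up e τ ∧ rf e τ x ∉ D ∧ rf e τ x ∉ D')
    (hVz : ∀ z ∈ V, z ∈ up e τ ∧ rf e τ z ∉ D ∧ z ∉ D')
    (hUV : ∀ x ∈ U, ∀ z ∈ V, Ker D' m (t / 2) x (rf e τ z) + δ ≤ Ker D m (t / 2) x z) :
    Tr D' (m + 1) t + δ ^ 2 * ((volume U).toReal * (volume V).toReal) ≤ Tr D (m + 1) t := by
  obtain ⟨hx1, hi1, ht1⟩ := trace_facts h1 h2 e τ he D hD hb m t ht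
  obtain ⟨hx2, hi2, ht2⟩ := trace_facts h1 h2 e τ he D' hD' hb' m t ht
  have hs2 : 0 < t / 2 := by positivity
  obtain ⟨_, hKb, hKz, _, _, _⟩ := h2 D hD hb m (t / 2) hs2
  obtain ⟨_, hKb', hKz', _, _, _⟩ := h2 D' hD' hb' m (t / 2) hs2
  have hup := meas_up e τ
  set K := Ker D m (t / 2) with hK
  set K' := Ker D' m (t / 2) with hK'
  -- pointwise
  have hsq : ∀ a b : ℝ, |a| ≤ b → a ^ 2 ≤ b ^ 2 := fun a b hab => sq_le_sq.mpr (hab.trans (le_abs_self b))
  have hpt : ∀ x ∈ up e τ, ∀ z ∈ up e τ, HH e τ K' x z ≤ HH e τ K x z := by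
    intro x hx z hz
    have hs := h3 e τ D D' he hD hb hD' hb' hP m (t / 2) hs2 x hx z hz
    have p1 := hsq _ _ (hs 1 (by simp) 1 (by simp))
    have p2 := hsq _ _ (hs 1 (by simp) (-1) (by simp))
    have p3 := hsq _ _ (hs (-1) (by simp) 1 (by simp))
    have p4 := hsq _ _ (hs (-1) (by simp) (-1) (by simp))
    rw [HH_eq, HH_eq]
    linarith
  have hpt2 : ∀ x ∈ up e τ, ∀ z ∈ up e τ,
      HH e τ K' x z + δ ^ 2 * U.indicator (fun _ => (1 : ℝ)) x * V.indicator (fun _ => (1 : ℝ)) z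
        ≤ HH e τ K x z := by
    intro x hx z hz
    by_cases hxU : x ∈ U
    · by_cases hzV : z ∈ V
      · obtain ⟨_, a1, a2⟩ := hUx x hxU
        obtain ⟨_, b1, b2⟩ := hVz z hzV
        have c := hUV x hxU z hzV
        rw [Set.indicator_of_mem hxU, Set.indicator_of_mem hzV]
        have k1 : K x (rf e τ z) = 0 := hKz _ _ (Or.inr b1)
        have k2 : K (rf e τ x) z = 0 := hKz _ _ (Or.inl a1)
        have k3 : K (rf e τ x) (rf e τ z) = 0 := hKz _ _ (Or.inl a1)
        have k4 : K' x z = 0 := hKz' _ _ (Or.inr b2)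
        have k5 : K' (rf e τ x) z = 0 := hKz' _ _ (Or.inl a2)
        have k6 : K' (rf e τ x) (rf e τ z) = 0 := hKz' _ _ (Or.inl a2)
        unfold HH
        rw [k1, k2, k3, k4, k5, k6]
        have n1 : 0 ≤ K' x (rf e τ z) := (hKb' _ _).1
        nlinarith [mul_nonneg n1 hδ, (hKb x z).1]
      · rw [Set.indicator_of_notMem hzV, mul_zero, add_zero]
        exact hpt x hx z hz
    · rw [Set.indicator_of_notMem hxU, mul_zero, zero_mul, add_zero]
      exact hpt x hx z hz
  have hVup : V ∩ up e τ = V := Set.inter_eq_left.mpr fun z hz => (hVz z hz).1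
  have hUup : U ∩ up e τ = U := Set.inter_eq_left.mpr fun z hz => (hUx z hz).1
  have hVint : IntegrableOn (V.indicator fun _ : ℂ => (1 : ℝ)) (up e τ) :=
    ((integrable_indicator_iff hV).mpr (integrableOn_const hVf)).integrableOn
  have hUint : IntegrableOn (U.indicator fun _ : ℂ => (1 : ℝ)) (up e τ) :=
    ((integrable_indicator_iff hU).mpr (integrableOn_const hUf)).integrableOn
  have hVval : ∫ z in up e τ, V.indicator (fun _ : ℂ => (1 : ℝ)) z = (volume V).toReal := by
    rw [setIntegral_indicator hV, Set.inter_comm, hVup]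
    simp [Measure.real]
  have hUval : ∫ z in up e τ, U.indicator (fun _ : ℂ => (1 : ℝ)) z = (volume U).toReal := by
    rw [setIntegral_indicator hU, Set.inter_comm, hUup]
    simp [Measure.real]
  have hstep : ∀ x ∈ up e τ, (∫ z in up e τ, HH e τ K' x z)
      + δ ^ 2 * U.indicator (fun _ => (1 : ℝ)) x * (volume V).toReal
        ≤ ∫ z in up e τ, HH e τ K x z := by
    intro x hx
    rw [← hVval, ← integral_const_mul, ← integral_add (hx2 x) (hVint.const_mul _)]
    exact setIntegral_mono_on ((hx2 x).add (hVint.const_mul _)) (hx1 x) hup (hpt2 x hx)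
  rw [ht1, ht2]
  have hfin : ∫ x in up e τ, δ ^ 2 * U.indicator (fun _ => (1 : ℝ)) x * (volume V).toReal
      = δ ^ 2 * ((volume U).toReal * (volume V).toReal) := by
    rw [integral_mul_const, integral_const_mul, hUval]
    ring
  have hiU : IntegrableOn (fun x => δ ^ 2 * U.indicator (fun _ => (1 : ℝ)) x * (volume V).toReal)
      (up e τ) := (hUint.const_mul _).mul_const _
  rw [← hfin, ← integral_add hi2 hiU]
  exact setIntegral_mono_on (hi2.add hiU) hi1 hup hstep

theorem spt (h1 : RfbStmt) (h2 : KerStatement) (h3 : SpnStmt) : SptStmt := by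
  intro e τ D D' he hD hb hD' hb' hP m t δ ht hδ U V hU hV hUx hVz hUV
  by_cases hUf : volume U = ⊤
  · have := spt_fin h1 h2 h3 e τ D D' he hD hb hD' hb' hP m t 0 ht le_rfl ∅ ∅ MeasurableSet.empty
      MeasurableSet.empty (by simp) (by simp) (by simp) (by simp) (by simp)
    rw [hUf]
    simpa using this
  · by_cases hVf : volume V = ⊤
    · have := spt_fin h1 h2 h3 e τ D D' he hD hb hD' hb' hP m t 0 ht le_rfl ∅ ∅
        MeasurableSet.empty MeasurableSet.empty (by simp) (by simp) (by simp) (by simp) (by simp)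
      rw [hVf]
      simpa using this
    · exact spt_fin h1 h2 h3 e τ D D' he hD hb hD' hb' hP m t δ ht hδ U V hU hV hUf hVf hUx hVz hUV

end Pool.Agent.QUD.H95
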